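import Pool.Agent.H47.SQ.Targets
import Pool.Agent.H51.SSM.CHO

/-!
# Row NUB (board ppz_modules)
-/

set_option autoImplicit false

namespace Pool.Agent.H7.SR

open Finset Pool.Agent.H97.RK Pool.Agent.H41.SS Pool.Agent.H47.SR
open Pool.Agent.H47.SQ (sav)

private theorem pow_exp {x L : ℝ} (hx : 0 ≤ x) (h : x ≤ Real.exp L) (a : ℕ) :
    x ^ a ≤ Real.exp (a * L) := by
  rw [Real.exp_nat_mul]
  exact pow_le_pow_left₀ hx h a

private theorem bl_mono {n a b : ℕ} (h : a ≤ b) : bl n a ≤ bl n b := by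
  unfold bl
  exact sum_le_sum_of_subset (range_subset_range.2 (by omega))

private theorem bl_top {n a : ℕ} (h : n ≤ a) : bl n a = 2 ^ n := by
  unfold bl
  rw [← Nat.sum_range_choose]
  symm
  refine sum_subset (range_subset_range.2 (by omega)) fun i _ hi => ?_
  refine Nat.choose_eq_zero_of_lt ?_
  rw [mem_range] at hi
  omega

theorem pf_NUB : T_NUB := by
  intro k n m t hk hkn ht hs hn
  obtain ⟨hC1, hC2⟩ := Pool.Agent.H51.SSM.pf_CHO
  have htr : (1 : ℝ) ≤ t := by exact_mod_cast ht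
  have ht0 : (0 : ℝ) < t := by linarith
  have hnr : (2 : ℝ) ^ 15 * t ≤ n := by exact_mod_cast hn
  have hn0 : (0 : ℝ) < n := by nlinarith
  have hkr : (2 : ℝ) ≤ k := by exact_mod_cast hk
  have hk0 : (0 : ℝ) < k := by linarith
  have he : Real.exp 1 < 2.7182818286 := Real.exp_one_lt_d9
  have hl1 : 0.6931471803 < Real.log 2 := Real.log_two_gt_d9
  have hl2 : Real.log 2 < 0.6931471808 := Real.log_two_lt_d9
  obtain ⟨Δ, hΔ⟩ : ∃ Δ : ℝ, Δ = (m : ℝ) / (2 ^ k * n) := ⟨_, rfl⟩
  have hΔ0 : 0 ≤ Δ := by rw [hΔ]; positivity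
  obtain ⟨L, hL⟩ : ∃ L : ℝ, L = Real.log (k * (1 + Δ)) := ⟨_, rfl⟩
  have hkΔ : (k : ℝ) ≤ k * (1 + Δ) := by nlinarith
  have hkΔ2 : 1 + Δ ≤ k * (1 + Δ) := by nlinarith
  have hexp : Real.exp L = k * (1 + Δ) := by
    rw [hL, Real.exp_log (by linarith)]
  have hLl : Real.log 2 ≤ L := by
    rw [hL]
    exact Real.log_le_log (by norm_num) (by linarith)
  have hs' : 2 ^ 13 * L * n ≤ k * t := by
    have h1 : sav n k m = L / k := by
      unfold sav
      rw [hL, hΔ]
    rw [h1] at hs
    have h2 : (2 : ℝ) ^ 13 * (L / k) * n * k = 2 ^ 13 * L * n := by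
      field_simp
    have h3 := mul_le_mul_of_nonneg_right hs hk0.le
    rw [h2] at h3
    linarith
  obtain ⟨x, hx⟩ : ∃ x : ℝ, x = (n : ℝ) / t := ⟨_, rfl⟩
  have hxn : (n : ℝ) = x * t := by rw [hx]; field_simp
  have hx0 : 0 < x := by rw [hx]; positivity
  have hx2 : 2 ≤ x := by
    rw [hx, le_div_iff₀ ht0]
    nlinarith
  have hxL : x ≤ Real.exp L := by
    rw [hexp]
    refine le_trans ?_ hkΔ
    rw [hx, div_le_iff₀ ht0]
    refine le_trans ?_ hs'
    nlinarith
  -- the factors
  have h1 : (bl n (2 ^ 15 * t + 4 * t + 1) : ℝ) ≤ Real.exp (32773 * t * L) := by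
    have e1 : bl n (2 ^ 15 * t + 4 * t + 1) ≤ bl n (32773 * t) := bl_mono (by omega)
    have e2 : (bl n (32773 * t) : ℝ) ≤ Real.exp (((32773 * t : ℕ) : ℝ) * L) := by
      rcases Nat.lt_or_ge n (32773 * t) with h | h
      · rw [bl_top h.le]
        push_cast
        calc (2 : ℝ) ^ n ≤ (Real.exp L) ^ n := pow_le_pow_left₀ (by norm_num) (hx2.trans hxL) n
          _ ≤ (Real.exp L) ^ (32773 * t) :=
            pow_le_pow_right₀ (by linarith) h.le
          _ = Real.exp (32773 * t * L) := by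
            rw [← Real.exp_nat_mul]
            push_cast
            ring_nf
      · refine (hC2 n (32773 * t) (by omega) h).trans ?_
        refine pow_exp (by positivity) (le_trans ?_ hxL) _
        push_cast
        rw [div_le_iff₀ (by positivity), hxn]
        nlinarith [mul_pos hx0 ht0]
    have e3 : ((32773 * t : ℕ) : ℝ) * L = 32773 * t * L := by push_cast; ring
    rw [e3] at e2
    exact le_trans (by exact_mod_cast e1) e2
  have h2 : (n.choose (128 * t) : ℝ) ≤ Real.exp (128 * t * L) := by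
    refine (hC1 n (128 * t) (by omega)).trans ?_
    have e3 : ((128 * t : ℕ) : ℝ) * L = 128 * t * L := by push_cast; ring
    rw [← e3]
    refine pow_exp (by positivity) (le_trans ?_ hxL) _
    push_cast
    rw [div_le_iff₀ (by positivity), hxn]
    nlinarith [mul_pos hx0 ht0]
  have h3 : (n.choose (12 * t) : ℝ) ≤ Real.exp (12 * t * L) := by
    refine (hC1 n (12 * t) (by omega)).trans ?_
    have e3 : ((12 * t : ℕ) : ℝ) * L = 12 * t * L := by push_cast; ring
    rw [← e3]
    refine pow_exp (by positivity) (le_trans ?_ hxL) _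
    push_cast
    rw [div_le_iff₀ (by positivity), hxn]
    nlinarith [mul_pos hx0 ht0]
  have h4 : ((2 * m).choose t : ℝ) ≤ 2 ^ (k * t) * Real.exp (t * (2 + 2 * L)) := by
    refine (hC1 (2 * m) t ht).trans ?_
    have e1 : Real.exp 1 * ((2 * m : ℕ) : ℝ) / t ≤ 2 ^ k * Real.exp (2 + 2 * L) := by
      have e2 : ((2 * m : ℕ) : ℝ) = 2 * (Δ * (2 ^ k * n)) := by
        push_cast
        rw [hΔ]
        field_simp
      have e3 : Real.exp (2 + 2 * L) = Real.exp 1 * Real.exp 1 * (Real.exp L * Real.exp L) := by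
        rw [← Real.exp_add, ← Real.exp_add, ← Real.exp_add]
        congr 1
        ring
      have e4 : 2 < Real.exp 1 := by
        have := Real.exp_one_gt_d9
        linarith
      have e5 : Δ ≤ Real.exp L := by rw [hexp]; linarith
      have e6 : Real.exp 1 * (2 * (Δ * (2 ^ k * (n : ℝ)))) / t =
          2 ^ k * (Real.exp 1 * 2 * (Δ * x)) := by
        rw [hx]
        field_simp
      rw [e2, e3, e6]
      apply mul_le_mul_of_nonneg_left _ (by positivity)
      apply mul_le_mul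
      · exact mul_le_mul_of_nonneg_left e4.le (Real.exp_pos _).le
      · exact mul_le_mul e5 hxL hx0.le (Real.exp_pos _).le
      · positivity
      · positivity
    calc (Real.exp 1 * ((2 * m : ℕ) : ℝ) / t) ^ t ≤ (2 ^ k * Real.exp (2 + 2 * L)) ^ t :=
          pow_le_pow_left₀ (by positivity) e1 t
      _ = 2 ^ (k * t) * Real.exp (t * (2 + 2 * L)) := by
          rw [mul_pow, ← pow_mul, ← Real.exp_nat_mul]
  have h5 : (((n : ℝ) - ((128 * t : ℕ) : ℝ) + ((12 * t : ℕ) : ℝ)) / (2 * n)) ^ (k * t) *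
      2 ^ (k * t) ≤ Real.exp (-(950272 * L * t)) := by
    rw [← mul_pow]
    have e1 : ((n : ℝ) - ((128 * t : ℕ) : ℝ) + ((12 * t : ℕ) : ℝ)) / (2 * n) * 2 =
        1 - 116 * t / n := by
      push_cast
      field_simp
      ring
    rw [e1]
    have e2 : 0 ≤ 1 - 116 * (t : ℝ) / n := by
      have : 116 * (t : ℝ) / n ≤ 1 := by
        rw [div_le_one hn0]
        nlinarith
      linarith
    have e3 : 1 - 116 * (t : ℝ) / n ≤ Real.exp (-(116 * t / n)) := by
      have := Real.add_one_le_exp (-(116 * (t : ℝ) / n))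
      linarith
    refine (pow_le_pow_left₀ e2 e3 _).trans ?_
    rw [← Real.exp_nat_mul]
    apply Real.exp_le_exp.2
    push_cast
    have e4 : (k : ℝ) * t * -(116 * t / n) = -(116 * t * (k * t / n)) := by ring
    rw [e4]
    have e5 : 2 ^ 13 * L ≤ (k : ℝ) * t / n := by
      rw [le_div_iff₀ hn0]
      exact hs'
    have e6 : 116 * (t : ℝ) * (2 ^ 13 * L) ≤ 116 * t * (k * t / n) :=
      mul_le_mul_of_nonneg_left e5 (by positivity)
    nlinarith
  have h6 : (2 : ℝ) ^ (7 * (2 ^ 15 * t)) ≤ Real.exp (158995 * t) := by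
    have e1 : (2 : ℝ) ≤ Real.exp (Real.log 2) := by
      rw [Real.exp_log (by norm_num)]
    refine (pow_exp (by norm_num) e1 _).trans ?_
    apply Real.exp_le_exp.2
    push_cast
    nlinarith
  -- the product
  unfold prb
  have hP0 : 0 ≤ (((n : ℝ) - ((128 * t : ℕ) : ℝ) + ((12 * t : ℕ) : ℝ)) / (2 * n)) ^ (k * t) := by
    apply pow_nonneg
    apply div_nonneg _ (by positivity)
    push_cast
    nlinarith
  generalize hP : (((n : ℝ) - ((128 * t : ℕ) : ℝ) + ((12 * t : ℕ) : ℝ)) / (2 * n)) ^ (k * t) = P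
    at h5 hP0 ⊢
  have h2k : (0 : ℝ) < 2 ^ (k * t) := by positivity
  have h45 : ((2 * m).choose t : ℝ) * P ≤
      Real.exp (t * (2 + 2 * L)) * Real.exp (-(950272 * L * t)) := by
    calc ((2 * m).choose t : ℝ) * P ≤ 2 ^ (k * t) * Real.exp (t * (2 + 2 * L)) * P :=
          mul_le_mul_of_nonneg_right h4 hP0
      _ = Real.exp (t * (2 + 2 * L)) * (P * 2 ^ (k * t)) := by ring
      _ ≤ _ := mul_le_mul_of_nonneg_left h5 (Real.exp_pos _).le
  have h23 : (n.choose (128 * t) : ℝ) * n.choose (12 * t) ≤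
      Real.exp (128 * t * L) * Real.exp (12 * t * L) :=
    mul_le_mul h2 h3 (Nat.cast_nonneg _) (Real.exp_pos _).le
  have h2345 : (n.choose (128 * t) : ℝ) * n.choose (12 * t) * ((2 * m).choose t : ℝ) * P ≤
      (Real.exp (128 * t * L) * Real.exp (12 * t * L)) *
        (Real.exp (t * (2 + 2 * L)) * Real.exp (-(950272 * L * t))) := by
    rw [mul_assoc]
    exact mul_le_mul h23 h45 (by positivity) (by positivity)
  have hall : (bl n (2 ^ 15 * t + 4 * t + 1) : ℝ) *
      ((n.choose (128 * t) : ℝ) * n.choose (12 * t) * ((2 * m).choose t : ℝ) * P) *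
      2 ^ (7 * (2 ^ 15 * t)) ≤
      Real.exp (32773 * t * L) * ((Real.exp (128 * t * L) * Real.exp (12 * t * L)) *
        (Real.exp (t * (2 + 2 * L)) * Real.exp (-(950272 * L * t)))) *
        Real.exp (158995 * t) := by
    apply mul_le_mul _ h6 (by positivity) (by positivity)
    exact mul_le_mul h1 h2345 (by positivity) (by positivity)
  refine hall.trans ?_
  rw [← Real.exp_add, ← Real.exp_add, ← Real.exp_add, ← Real.exp_add, ← Real.exp_add]
  rw [Real.exp_le_one_iff]
  have hfin : 32773 * (t : ℝ) * L + (128 * t * L + 12 * t * L +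
      (t * (2 + 2 * L) + -(950272 * L * t))) + 158995 * t = t * (158997 - 917357 * L) := by ring
  rw [hfin]
  apply mul_nonpos_of_nonneg_of_nonpos ht0.le
  nlinarith

end Pool.Agent.H7.SR
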